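import Pool.Agent.L0h7.MS.Stm

/-!
# Project MS (helper7): the module PRW

Products and finite powers of finitely presented groups.
-/

set_option autoImplicit false

namespace Pool.Agent.L0h23.MS

open Pool.Agent.L0h7.MS

open Group (IsFinitelyPresented)

theorem fp_fg {G : Type} [Group G] (h : IsFinitelyPresented G) : Group.FG G := by
  obtain ⟨n, φ, hφ, -⟩ := h
  exact Group.fg_of_surjective hφ

/-- the product of two finitely presented groups -/
theorem fp_prod {G H : Type} [Group G] [Group H] (hG : IsFinitelyPresented G)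
    (hH : IsFinitelyPresented H) : IsFinitelyPresented (G × H) := by
  classical
  obtain ⟨S, hS, hSf⟩ := Group.fg_iff.1 (fp_fg hG)
  obtain ⟨T, hT, hTf⟩ := Group.fg_iff.1 (fp_fg hH)
  haveI := hG
  haveI := hH
  let R : Set (Monoid.Coprod G H) :=
    (fun p : G × H => (Monoid.Coprod.inl p.1 : Monoid.Coprod G H) * Monoid.Coprod.inr p.2 *
      (Monoid.Coprod.inl p.1)⁻¹ * (Monoid.Coprod.inr p.2)⁻¹) '' (S ×ˢ T)
  have hR : R.Finite := (hSf.prod hTf).image _
  refine Group.IsFinitelyPresented.of_surjective (Monoid.Coprod.toProd : Monoid.Coprod G H →* G × H)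
    Monoid.Coprod.toProd_surjective ⟨R, hR, ?_⟩
  apply le_antisymm
  · apply Subgroup.normalClosure_le_normal
    rintro _ ⟨⟨g, h⟩, -, rfl⟩
    change Monoid.Coprod.toProd _ = 1
    simp
  · let K := Subgroup.normalClosure R
    let q : Monoid.Coprod G H →* Monoid.Coprod G H ⧸ K := QuotientGroup.mk' K
    let i : G →* Monoid.Coprod G H ⧸ K := q.comp Monoid.Coprod.inl
    let j : H →* Monoid.Coprod G H ⧸ K := q.comp Monoid.Coprod.inr
    have h1 : ∀ g ∈ S, ∀ h ∈ T, Commute (i g) (j h) := by
      intro g hg h hh
      have h2 : (Monoid.Coprod.inl g : Monoid.Coprod G H) * Monoid.Coprod.inr h *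
          (Monoid.Coprod.inl g)⁻¹ * (Monoid.Coprod.inr h)⁻¹ ∈ K :=
        Subgroup.subset_normalClosure ⟨(g, h), ⟨hg, hh⟩, rfl⟩
      have h3 : q ((Monoid.Coprod.inl g : Monoid.Coprod G H) * Monoid.Coprod.inr h *
          (Monoid.Coprod.inl g)⁻¹ * (Monoid.Coprod.inr h)⁻¹) = 1 :=
        (QuotientGroup.eq_one_iff _).2 h2
      rw [map_mul, map_mul, map_mul, map_inv, map_inv] at h3
      change i g * j h = j h * i g
      change i g * j h * (i g)⁻¹ * (j h)⁻¹ = 1 at h3
      rw [mul_inv_eq_one, mul_inv_eq_iff_eq_mul] at h3
      exact h3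
    have h4 : ∀ g : G, ∀ h ∈ T, Commute (i g) (j h) := by
      intro g h hh
      have hg : g ∈ Subgroup.closure S := by rw [hS]; trivial
      induction hg using Subgroup.closure_induction with
      | mem x hx => exact h1 x hx h hh
      | one => rw [map_one]; exact Commute.one_left _
      | mul x y _ _ hx hy => rw [map_mul]; exact hx.mul_left hy
      | inv x _ hx => rw [map_inv]; exact hx.inv_left
    have h5 : ∀ (g : G) (h : H), Commute (i g) (j h) := by
      intro g h
      have hh : h ∈ Subgroup.closure T := by rw [hT]; trivial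
      induction hh using Subgroup.closure_induction with
      | mem x hx => exact h4 g x hx
      | one => rw [map_one]; exact Commute.one_right _
      | mul x y _ _ hx hy => rw [map_mul]; exact hx.mul_right hy
      | inv x _ hx => rw [map_inv]; exact hx.inv_right
    let f : G × H →* Monoid.Coprod G H ⧸ K := MonoidHom.noncommCoprod i j h5
    have h6 : f.comp Monoid.Coprod.toProd = q := by
      apply Monoid.Coprod.hom_ext
      · ext g
        simp [f, i]
      · ext h
        simp [f, j]
    intro x hx
    have h7 : q x = 1 := by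
      rw [← h6, MonoidHom.comp_apply]
      have h8 : (Monoid.Coprod.toProd : Monoid.Coprod G H →* G × H) x = 1 := hx
      rw [h8, map_one]
    exact (QuotientGroup.eq_one_iff _).1 h7

/-- splitting off the first coordinate -/
def consEq (G : Type) [Group G] (m : ℕ) : (G × (Fin m → G)) ≃* (Fin (m + 1) → G) where
  toFun p := Fin.cons p.1 p.2
  invFun f := (f 0, Fin.tail f)
  left_inv p := by simp
  right_inv f := by simp
  map_mul' p q := by
    funext i
    refine Fin.cases ?_ (fun i => ?_) i <;> simp

/-- module PRW -/
theorem t_PRW : S_PRW := by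
  intro G _ hG m
  induction m with
  | zero => infer_instance
  | succ m ih =>
    haveI := fp_prod hG ih
    exact Group.IsFinitelyPresented.equiv (consEq G m)

end Pool.Agent.L0h23.MS
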